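import Pool.Agent.TH502.PK.Cut

set_option autoImplicit false
set_option linter.unusedSectionVars false

namespace Pool.Agent.TH502.PK

open Finset

section

variable {V E : Type} [Fintype E] [DecidableEq V] [DecidableEq E] {G : MG V E}

lemma mem_cut_joins {e : E} {a b : V} (h : G.Joins e a b) (X : Finset V) :
    e ∈ G.cut X ↔ ¬ (a ∈ X ↔ b ∈ X) := by
  unfold MG.cut
  rw [mem_filter]
  rcases h with ⟨h1, h2⟩ | ⟨h1, h2⟩
  · rw [h1, h2]
    simp
  · rw [h1, h2]
    constructor
    · rintro ⟨-, h⟩ h'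
      exact h h'.symm
    · intro h
      exact ⟨mem_univ _, fun h' => h h'.symm⟩

lemma chain (P : ℕ → Prop) (a c : ℕ) (hac : a ≤ c) (h : ∀ i, a ≤ i → i < c → (P i ↔ P (i + 1))) :
    P a ↔ P c := by
  induction c, hac using Nat.le_induction with
  | base => rfl
  | succ c hc ih =>
    rw [ih (fun i h1 h2 => h i h1 (by omega))]
    exact h c hc (by omega)

lemma cross (S : PetersenSubdivision G) (X : Finset V) (j : Fin 15)
    (h : ¬ (S.x j 0 ∈ X ↔ S.x j (S.n j) ∈ X)) : ∃ i, i < S.n j ∧ S.y j i ∈ G.cut X := by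
  by_contra hc
  push Not at hc
  apply h
  refine chain (fun i => S.x j i ∈ X) 0 (S.n j) (Nat.zero_le _) fun i _ hi => ?_
  have h1 := hc i hi
  rw [mem_cut_joins (S.joins j i hi)] at h1
  exact not_not.1 h1

lemma cross_two (S : PetersenSubdivision G) (X : Finset V) (j : Fin 15) (i0 : ℕ)
    (hi0 : i0 < S.n j) (h0 : S.y j i0 ∈ G.cut X) (h : S.x j 0 ∈ X ↔ S.x j (S.n j) ∈ X) :
    ∃ i, i < S.n j ∧ i ≠ i0 ∧ S.y j i ∈ G.cut X := by
  by_contra hc
  push Not at hc
  rw [mem_cut_joins (S.joins j i0 hi0)] at h0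
  apply h0
  have h1 : ∀ i, i < S.n j → i ≠ i0 → (S.x j i ∈ X ↔ S.x j (i + 1) ∈ X) := by
    intro i hi hne
    have h2 := hc i hi hne
    rw [mem_cut_joins (S.joins j i hi)] at h2
    exact not_not.1 h2
  have h2 := chain (fun i => S.x j i ∈ X) 0 i0 (Nat.zero_le _) fun i _ hi => h1 i (by omega) (by omega)
  have h3 := chain (fun i => S.x j i ∈ X) (i0 + 1) (S.n j) hi0 fun i hi hi' =>
    h1 i hi' (by omega)
  exact h2.symm.trans (h.trans h3.symm)

lemma pw_pos (j : Fin 15) : 1 ≤ pw j := by
  revert j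
  decide

lemma pw_le (j : Fin 15) : pw j ≤ 2 := by
  revert j
  decide

lemma inner_ge (S : PetersenSubdivision G) (k : ℕ) (A : Finset E) (j : Fin 15) (i : ℕ)
    (hi : i < S.n j) (h : S.y j i ∈ A) :
    k * pw j ≤ ∑ i ∈ range (S.n j), if S.y j i ∈ A then k * pw j else 0 := by
  have h1 := single_le_sum (f := fun i => if S.y j i ∈ A then k * pw j else 0)
    (s := range (S.n j)) (fun i _ => Nat.zero_le _) (mem_range.2 hi)
  simpa [h] using h1

lemma admissible (S : PetersenSubdivision G) (k : ℕ) : G.Admissible (wt S k) := by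
  intro X e he
  by_cases hz : ∀ j i, i < S.n j → S.y j i ≠ e
  · rw [wt_zero S k e hz]
    exact Nat.zero_le _
  · push Not at hz
    obtain ⟨j0, i0, hi0, rfl⟩ := hz
    rw [wt_path S k j0 i0 hi0, sum_wt]
    by_cases hpar : S.x j0 0 ∈ X ↔ S.x j0 (S.n j0) ∈ X
    · obtain ⟨i1, hi1, hne, h1⟩ := cross_two S X j0 i0 hi0 he hpar
      refine le_trans (inner_ge S k _ j0 i1 hi1 ?_) (single_le_sum (f := fun j =>
        ∑ i ∈ range (S.n j), if S.y j i ∈ (G.cut X).erase (S.y j0 i0) then k * pw j else 0)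
        (fun j _ => Nat.zero_le _) (mem_univ j0))
      rw [mem_erase]
      exact ⟨fun h => hne (S.edge_inj _ _ _ _ hi1 hi0 h).2, h1⟩
    · set g : Fin 10 → Bool := fun u => decide (S.b u ∈ X) with hg
      have hcr : ∀ j, g (petersen.fst j) ≠ g (petersen.snd j) ↔
          ¬ (S.x j 0 ∈ X ↔ S.x j (S.n j) ∈ X) := by
        intro j
        rw [S.first, S.last, hg]
        simp only [ne_eq, decide_eq_decide]
      have hj0 := (hcr j0).2 hpar
      have h3 := cut_three g (by
        by_contra hc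
        push Not at hc
        have e1 := hc (petersen.fst j0)
        have e2 := hc (petersen.snd j0)
        simp only [ne_eq, Bool.not_eq_true] at e1 e2
        exact hj0 (e1.trans e2.symm)) (by
        by_contra hc
        push Not at hc
        have e1 := hc (petersen.fst j0)
        have e2 := hc (petersen.snd j0)
        simp only [ne_eq, Bool.not_eq_false] at e1 e2
        exact hj0 (e1.trans e2.symm))
      set Cr := univ.filter fun j : Fin 15 => g (petersen.fst j) ≠ g (petersen.snd j) with hCr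
      have hmem : j0 ∈ Cr := by
        rw [hCr]
        exact mem_filter.2 ⟨mem_univ _, hj0⟩
      have h4 : 2 ≤ (Cr.erase j0).card := by
        rw [card_erase_of_mem hmem]
        omega
      calc k * pw j0 ≤ k * 2 := Nat.mul_le_mul_left _ (pw_le j0)
        _ ≤ k * (Cr.erase j0).card := Nat.mul_le_mul_left _ h4
        _ = ∑ _j ∈ Cr.erase j0, k := by rw [sum_const, smul_eq_mul, mul_comm]
        _ ≤ ∑ j ∈ Cr.erase j0, ∑ i ∈ range (S.n j),
              (if S.y j i ∈ (G.cut X).erase (S.y j0 i0) then k * pw j else 0) := by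
            refine sum_le_sum fun j hj => ?_
            rw [mem_erase, hCr, mem_filter] at hj
            obtain ⟨hne, -, hj⟩ := hj
            obtain ⟨i, hi, hic⟩ := cross S X j ((hcr j).1 hj)
            refine le_trans ?_ (inner_ge S k _ j i hi ?_)
            · exact Nat.le_mul_of_pos_right _ (pw_pos j)
            · rw [mem_erase]
              exact ⟨fun h => hne (S.edge_inj _ _ _ _ hi hi0 h).1, hic⟩
        _ ≤ _ := sum_le_sum_of_subset (subset_univ _)

lemma tele (ξ : ℕ → ZMod 2) (n : ℕ) : ∑ i ∈ range n, (ξ i + ξ (i + 1)) = ξ 0 + ξ n := by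
  induction n with
  | zero =>
    rw [sum_range_zero]
    exact (CharTwo.add_self_eq_zero _).symm
  | succ n ih =>
    rw [sum_range_succ, ih]
    have h := CharTwo.add_self_eq_zero (ξ n)
    linear_combination h

lemma petersen_even (g : Fin 10 → ZMod 2) :
    ∑ j, (pw j : ZMod 2) * (g (petersen.fst j) + g (petersen.snd j)) = 0 := by
  have h2 : (2 : ZMod 2) = 0 := by decide
  have h : ∑ j, (pw j : ZMod 2) * (g (petersen.fst j) + g (petersen.snd j)) =
      2 * (2 * (g 0 + g 1 + g 2 + g 3 + g 4 + g 5 + g 6 + g 7 + g 8 + g 9)) := by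
    simp [Fin.sum_univ_succ, pw, petersen]
    ring
  rw [h, h2, zero_mul]

lemma eulerian (S : PetersenSubdivision G) (k : ℕ) : G.Eulerian (wt S k) := by
  intro X
  rw [sum_wt, ← ZMod.natCast_eq_zero_iff_even]
  set g : Fin 10 → ZMod 2 := fun u => if S.b u ∈ X then 1 else 0 with hg
  have h1 : ∀ j, ((∑ i ∈ range (S.n j), if S.y j i ∈ G.cut X then k * pw j else 0 : ℕ) : ZMod 2) =
      k * (pw j * (g (petersen.fst j) + g (petersen.snd j))) := by
    intro j
    have h2 := tele (fun i => if S.x j i ∈ X then 1 else 0) (S.n j)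
    simp only [S.first, S.last] at h2
    rw [hg]
    simp only
    rw [← h2, Nat.cast_sum, mul_sum, mul_sum]
    refine sum_congr rfl fun i hi => ?_
    rw [mem_range] at hi
    have h3 := mem_cut_joins (S.joins j i hi) X
    by_cases ha : S.x j i ∈ X <;> by_cases hb : S.x j (i + 1) ∈ X
    · have h4 : S.y j i ∉ G.cut X := by rw [h3]; tauto
      rw [if_neg h4, if_pos ha, if_pos hb]
      have h5 : (1 : ZMod 2) + 1 = 0 := by decide
      rw [h5]
      simp
    · have h4 : S.y j i ∈ G.cut X := by rw [h3]; tauto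
      rw [if_pos h4, if_pos ha, if_neg hb]
      push_cast
      ring
    · have h4 : S.y j i ∈ G.cut X := by rw [h3]; tauto
      rw [if_pos h4, if_neg ha, if_pos hb]
      push_cast
      ring
    · have h4 : S.y j i ∉ G.cut X := by rw [h3]; tauto
      rw [if_neg h4, if_neg ha, if_neg hb]
      simp
  rw [Nat.cast_sum, sum_congr rfl fun j _ => h1 j, ← mul_sum, petersen_even, mul_zero]

end

end Pool.Agent.TH502.PK
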