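import Pool.Agent.TH502.PK.Main

set_option autoImplicit false
set_option linter.unusedSectionVars false

namespace Pool.Agent.TH502.PK

open Finset

/-- ends of the edges of the Petersen graph -/
def pfs : List (ℕ × ℕ) :=
  [(0, 1), (1, 2), (2, 3), (3, 4), (4, 0), (5, 7), (6, 8), (7, 9), (8, 5), (9, 6), (0, 5), (1, 6),
    (2, 7), (3, 8), (4, 9)]

set_option maxRecDepth 100000 in
lemma cut_nat : ∀ m < 1024, m ≠ 0 → m ≠ 1023 →
    3 ≤ pfs.countP (fun p => m.testBit p.1 != m.testBit p.2) := by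
  decide

lemma cut_three (g : Fin 10 → Bool) (h1 : ∃ u, g u = true) (h0 : ∃ u, g u = false) :
    3 ≤ (univ.filter fun j : Fin 15 => g (petersen.fst j) ≠ g (petersen.snd j)).card := by
  have hb : ∀ (i : ℕ) (hi : i < 10), (Nat.ofBits g).testBit i = g ⟨i, hi⟩ := fun i hi =>
    Nat.testBit_ofBits_lt g i hi
  have h1023 : ∀ u : Fin 10, Nat.testBit 1023 (u : ℕ) = true := by decide
  have hm0 : Nat.ofBits g ≠ 0 := by
    intro h
    obtain ⟨u, hu⟩ := h1
    have h2 : (Nat.ofBits g).testBit u = g u := hb u u.2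
    rw [h, Nat.zero_testBit, hu] at h2
    exact absurd h2 (by decide)
  have hm1 : Nat.ofBits g ≠ 1023 := by
    intro h
    obtain ⟨u, hu⟩ := h0
    have h2 : (Nat.ofBits g).testBit u = g u := hb u u.2
    rw [h, h1023 u, hu] at h2
    exact absurd h2 (by decide)
  have hm := cut_nat (Nat.ofBits g) (Nat.ofBits_lt_two_pow g) hm0 hm1
  refine le_trans hm (le_of_eq ?_)
  rw [card_filter]
  simp only [pfs, List.countP_cons, List.countP_nil, Fin.sum_univ_succ, petersen]
  simp only [hb _ (by norm_num : (0 : ℕ) < 10), hb _ (by norm_num : (1 : ℕ) < 10),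
    hb _ (by norm_num : (2 : ℕ) < 10), hb _ (by norm_num : (3 : ℕ) < 10),
    hb _ (by norm_num : (4 : ℕ) < 10), hb _ (by norm_num : (5 : ℕ) < 10),
    hb _ (by norm_num : (6 : ℕ) < 10), hb _ (by norm_num : (7 : ℕ) < 10),
    hb _ (by norm_num : (8 : ℕ) < 10), hb _ (by norm_num : (9 : ℕ) < 10)]
  simp
  ring_nf

end Pool.Agent.TH502.PK
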