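import Mathlib

/-!
# Finite multigraphs, circuits, faithful circuit covers, subdivisions of the Petersen graph
-/

set_option autoImplicit false

namespace Pool.Agent.TH502.PK

/-- A multigraph with vertex set `V` and edge set `E`. The two ends of the edge `e` are `fst e` and
`snd e`; their order has no meaning. Parallel edges and loops are allowed. -/
structure MG (V E : Type) where
  /-- one end of an edge -/
  fst : E → V
  /-- the other end of an edge -/
  snd : E → V

/-- The ends of the edge `e` are `x` and `y`. -/
def MG.Joins {V E : Type} (G : MG V E) (e : E) (x y : V) : Prop :=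
  (G.fst e = x ∧ G.snd e = y) ∨ (G.fst e = y ∧ G.snd e = x)

/-- `C` is the edge set of a circuit (a connected 2-regular subgraph): there are distinct vertices
`v 0, ..., v n` and distinct edges `e 0, ..., e n` such that `e i` joins `v i` and `v (i + 1)`
(indices modulo `n + 1`), and `C` consists of the edges `e i`. -/
def MG.IsCircuit {V E : Type} (G : MG V E) (C : Finset E) : Prop :=
  ∃ (n : ℕ) (v : ZMod (n + 1) → V) (e : ZMod (n + 1) → E),
    Function.Injective v ∧ Function.Injective e ∧ (∀ i, G.Joins (e i) (v i) (v (i + 1))) ∧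
      ∀ x, x ∈ C ↔ ∃ i, e i = x

/-- The edge-cut `δ(X)`: the edges with exactly one end in `X`. -/
def MG.cut {V E : Type} [Fintype E] [DecidableEq V] (G : MG V E) (X : Finset V) : Finset E :=
  Finset.univ.filter fun e => ¬ (G.fst e ∈ X ↔ G.snd e ∈ X)

/-- The weight of every edge `e` of every edge-cut `T` is at most the weight of `T - {e}`. -/
def MG.Admissible {V E : Type} [Fintype E] [DecidableEq V] [DecidableEq E] (G : MG V E)
    (w : E → ℕ) : Prop :=
  ∀ X : Finset V, ∀ e ∈ G.cut X, w e ≤ ∑ f ∈ (G.cut X).erase e, w f

/-- The weight of every edge-cut is even. -/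
def MG.Eulerian {V E : Type} [Fintype E] [DecidableEq V] (G : MG V E) (w : E → ℕ) : Prop :=
  ∀ X : Finset V, Even (∑ f ∈ G.cut X, w f)

/-- `(G, w)` has a faithful circuit cover: a list of circuits (repetitions allowed) such that every
edge `e` lies in exactly `w e` members of the list. -/
def MG.FaithfulCover {V E : Type} [DecidableEq E] (G : MG V E) (w : E → ℕ) : Prop :=
  ∃ F : List (Finset E), (∀ C ∈ F, G.IsCircuit C) ∧ ∀ e, F.countP (fun C => e ∈ C) = w e

/-- The property `P_k`: every admissible eulerian weight with all values divisible by `k` has a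
faithful circuit cover. -/
def MG.HasP {V E : Type} [Fintype E] [DecidableEq V] [DecidableEq E] (G : MG V E) (k : ℕ) : Prop :=
  ∀ w : E → ℕ, (∀ e, k ∣ w e) → G.Admissible w → G.Eulerian w → G.FaithfulCover w

/-- The Petersen graph: the vertices `0, ..., 4` form a pentagon (edges `0, ..., 4`), the vertices
`5, ..., 9` form a pentagram (edges `5, ..., 9`), and the edges `10, ..., 14` join `i` and
`5 + i`. -/
def petersen : MG (Fin 10) (Fin 15) where
  fst := ![0, 1, 2, 3, 4, 5, 6, 7, 8, 9, 0, 1, 2, 3, 4]
  snd := ![1, 2, 3, 4, 0, 7, 8, 9, 5, 6, 5, 6, 7, 8, 9]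

/-- A subdivision of the Petersen graph in `G`: distinct branch vertices `b u`, one for every vertex
`u` of the Petersen graph, and for every edge `j` of the Petersen graph a path in `G` with vertices
`x j 0, ..., x j (n j)` and edges `y j 0, ..., y j (n j - 1)` which joins the branch vertices of the
two ends of `j`; different paths have no edge in common, and no vertex apart from their ends. -/
structure PetersenSubdivision {V E : Type} (G : MG V E) where
  /-- branch vertices -/
  b : Fin 10 → V
  /-- lengths of the paths -/
  n : Fin 15 → ℕ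
  /-- vertices of the paths -/
  x : Fin 15 → ℕ → V
  /-- edges of the paths -/
  y : Fin 15 → ℕ → E
  b_inj : Function.Injective b
  n_pos : ∀ j, 0 < n j
  first : ∀ j, x j 0 = b (petersen.fst j)
  last : ∀ j, x j (n j) = b (petersen.snd j)
  joins : ∀ j i, i < n j → G.Joins (y j i) (x j i) (x j (i + 1))
  disj : ∀ j i j' i', i ≤ n j → i' ≤ n j' → x j i = x j' i' →
    (j = j' ∧ i = i') ∨ ((i = 0 ∨ i = n j) ∧ (i' = 0 ∨ i' = n j'))
  edge_inj : ∀ j i j' i', i < n j → i' < n j' → y j i = y j' i' → j = j' ∧ i = i'

end Pool.Agent.TH502.PK
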