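import Pool.Agent.TH502.PK.Defs

set_option autoImplicit false
set_option linter.unusedSectionVars false

namespace Pool.Agent.TH502.PK

open Finset

/-- The weight of the Petersen graph: `1` on the pentagon and the pentagram, `2` between them. -/
def pw : Fin 15 → ℕ := ![1, 1, 1, 1, 1, 1, 1, 1, 1, 1, 2, 2, 2, 2, 2]

section

variable {V E : Type} [Fintype E] [DecidableEq V] [DecidableEq E] {G : MG V E}

/-- `k` times the weight of the Petersen graph on the subdivision, `0` elsewhere. -/
def wt (S : PetersenSubdivision G) (k : ℕ) (e : E) : ℕ :=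
  ∑ j, ∑ i ∈ range (S.n j), if S.y j i = e then k * pw j else 0

lemma sum_wt (S : PetersenSubdivision G) (k : ℕ) (A : Finset E) :
    ∑ e ∈ A, wt S k e = ∑ j, ∑ i ∈ range (S.n j), if S.y j i ∈ A then k * pw j else 0 := by
  unfold wt
  rw [sum_comm]
  refine sum_congr rfl fun j _ => ?_
  rw [sum_comm]
  refine sum_congr rfl fun i _ => ?_
  rw [sum_ite_eq]

lemma single_sum (S : PetersenSubdivision G) (f : Fin 15 → ℕ → ℕ) (j : Fin 15) (i : ℕ)
    (hi : i < S.n j) (h : ∀ j' i', i' < S.n j' → ¬ (j' = j ∧ i' = i) → f j' i' = 0) :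
    ∑ j', ∑ i' ∈ range (S.n j'), f j' i' = f j i := by
  rw [sum_eq_single j, sum_eq_single i]
  · intro i' hi' hne
    exact h j i' (mem_range.1 hi') (by tauto)
  · intro hh
    exact absurd (mem_range.2 hi) hh
  · intro j' _ hne
    refine sum_eq_zero fun i' hi' => h j' i' (mem_range.1 hi') (by tauto)
  · intro hh
    exact absurd (mem_univ _) hh

lemma wt_path (S : PetersenSubdivision G) (k : ℕ) (j : Fin 15) (i : ℕ) (hi : i < S.n j) :
    wt S k (S.y j i) = k * pw j := by
  unfold wt
  rw [single_sum S _ j i hi]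
  · rw [if_pos rfl]
  · intro j' i' hi' hne
    rw [if_neg]
    intro he
    exact hne (S.edge_inj _ _ _ _ hi' hi he)

lemma wt_zero (S : PetersenSubdivision G) (k : ℕ) (e : E)
    (h : ∀ j i, i < S.n j → S.y j i ≠ e) : wt S k e = 0 := by
  unfold wt
  refine sum_eq_zero fun j _ => sum_eq_zero fun i hi => ?_
  rw [if_neg (h j i (mem_range.1 hi))]

/-- number of ends of `e` equal to `z` -/
def inc (G : MG V E) (e : E) (z : V) : ℕ :=
  (if G.fst e = z then 1 else 0) + (if G.snd e = z then 1 else 0)

lemma inc_joins {e : E} {a b : V} (h : G.Joins e a b) (z : V) :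
    inc G e z = (if a = z then 1 else 0) + (if b = z then 1 else 0) := by
  unfold inc
  rcases h with ⟨rfl, rfl⟩ | ⟨rfl, rfl⟩
  · rfl
  · rw [add_comm]

lemma circuit_even {C : Finset E} (hC : G.IsCircuit C) (z : V) : Even (∑ e ∈ C, inc G e z) := by
  obtain ⟨n, v, e, -, he, hj, hCe⟩ := hC
  have h1 : C = univ.image e := by
    ext x
    rw [hCe, mem_image]
    simp
  rw [h1, sum_image (fun a _ b _ hab => he hab)]
  have h2 : ∀ i, inc G (e i) z = (if v i = z then 1 else 0) + (if v (i + 1) = z then 1 else 0) :=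
    fun i => inc_joins (hj i) z
  rw [sum_congr rfl fun i _ => h2 i, sum_add_distrib]
  have h3 : ∑ i, (if v (i + 1) = z then 1 else 0) = ∑ i, (if v i = z then (1 : ℕ) else 0) :=
    Equiv.sum_comp (Equiv.addRight (1 : ZMod (n + 1))) (fun i => if v i = z then (1 : ℕ) else 0)
  rw [h3]
  exact ⟨_, rfl⟩

lemma sum_supported (S : PetersenSubdivision G) (C : Finset E)
    (hC : ∀ e ∈ C, ∃ j i, i < S.n j ∧ S.y j i = e) (f : E → ℕ) :
    ∑ e ∈ C, f e = ∑ j, ∑ i ∈ range (S.n j), if S.y j i ∈ C then f (S.y j i) else 0 := by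
  have h1 : ∀ e ∈ C, f e = ∑ j, ∑ i ∈ range (S.n j), if S.y j i = e then f e else 0 := by
    intro e he
    obtain ⟨j, i, hi, rfl⟩ := hC e he
    rw [single_sum S _ j i hi]
    · rw [if_pos rfl]
    · intro j' i' hi' hne
      rw [if_neg]
      intro hh
      exact hne (S.edge_inj _ _ _ _ hi' hi hh)
  rw [sum_congr rfl h1, sum_comm]
  refine sum_congr rfl fun j _ => ?_
  rw [sum_comm]
  refine sum_congr rfl fun i _ => ?_
  rw [sum_ite_eq]

lemma x_internal (S : PetersenSubdivision G) (j : Fin 15) (i : ℕ) (h0 : 0 < i) (hi : i < S.n j)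
    (j' : Fin 15) (i' : ℕ) (hi' : i' ≤ S.n j') : S.x j' i' = S.x j i ↔ j' = j ∧ i' = i := by
  constructor
  · intro h
    rcases S.disj j' i' j i hi' hi.le h with h1 | h1
    · exact h1
    · omega
  · rintro ⟨rfl, rfl⟩
    rfl

lemma step (S : PetersenSubdivision G) {C : Finset E} (hCc : G.IsCircuit C)
    (hC : ∀ e ∈ C, ∃ j i, i < S.n j ∧ S.y j i = e) (j : Fin 15) (i : ℕ) (hi : i + 1 < S.n j) :
    S.y j (i + 1) ∈ C ↔ S.y j i ∈ C := by
  have h1 := circuit_even hCc (S.x j (i + 1))
  rw [sum_supported S C hC] at h1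
  have h2 : ∀ j', ∀ i' ∈ range (S.n j'),
      (if S.y j' i' ∈ C then inc G (S.y j' i') (S.x j (i + 1)) else 0) =
      (if j' = j ∧ i' = i + 1 then (if S.y j (i + 1) ∈ C then 1 else 0) else 0) +
      (if j' = j ∧ i' = i then (if S.y j i ∈ C then 1 else 0) else 0) := by
    intro j' i' hi'
    rw [mem_range] at hi'
    rw [inc_joins (S.joins j' i' hi')]
    have e1 := x_internal S j (i + 1) (Nat.succ_pos i) hi j' i' hi'.le
    have e2 := x_internal S j (i + 1) (Nat.succ_pos i) hi j' (i' + 1) hi'
    simp only [e1, e2]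
    by_cases hj : j' = j
    · subst hj
      by_cases ha : i' = i + 1
      · subst ha
        have : ¬ (i + 1 = i) := by omega
        have h' : ¬ (i + 1 + 1 = i + 1) := by omega
        simp [this, h']
      · by_cases hb : i' = i
        · subst hb
          simp
        · have h' : ¬ (i' + 1 = i + 1) := by omega
          simp [ha, hb]
    · simp [hj]
  rw [sum_congr rfl fun j' _ => sum_congr rfl (h2 j')] at h1
  simp only [sum_add_distrib] at h1
  rw [single_sum S _ j (i + 1) hi (fun j' i' _ hne => if_neg hne),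
    single_sum S _ j i (by omega) (fun j' i' _ hne => if_neg hne)] at h1
  simp only [and_self, if_true] at h1
  by_cases ha : S.y j (i + 1) ∈ C <;> by_cases hb : S.y j i ∈ C <;> simp [ha, hb] at h1 ⊢

lemma all_or_none (S : PetersenSubdivision G) {C : Finset E} (hCc : G.IsCircuit C)
    (hC : ∀ e ∈ C, ∃ j i, i < S.n j ∧ S.y j i = e) (j : Fin 15) (i : ℕ) (hi : i < S.n j) :
    S.y j i ∈ C ↔ S.y j 0 ∈ C := by
  induction i with
  | zero => rfl
  | succ i ih => rw [step S hCc hC j i hi, ih (by omega)]

lemma incident (u : Fin 10) : ∃ j, petersen.fst j = u ∨ petersen.snd j = u := by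
  revert u
  decide

lemma no_loop (j : Fin 15) : petersen.fst j ≠ petersen.snd j := by
  revert j
  decide

lemma x_branch (S : PetersenSubdivision G) (u : Fin 10) (j : Fin 15) (i : ℕ) (hi : i ≤ S.n j) :
    S.x j i = S.b u ↔ (i = 0 ∧ petersen.fst j = u) ∨ (i = S.n j ∧ petersen.snd j = u) := by
  constructor
  · intro h
    have h1 : i = 0 ∨ i = S.n j := by
      obtain ⟨j', hj'⟩ := incident u
      rcases hj' with h2 | h2
      · rw [← h2, ← S.first j'] at h
        rcases S.disj j i j' 0 hi (Nat.zero_le _) h with ⟨_, h3⟩ | ⟨h3, _⟩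
        · exact Or.inl h3
        · exact h3
      · rw [← h2, ← S.last j'] at h
        rcases S.disj j i j' _ hi le_rfl h with ⟨h4, h3⟩ | ⟨h3, _⟩
        · subst h4
          exact Or.inr h3
        · exact h3
    rcases h1 with h1 | h1
    · subst h1
      rw [S.first] at h
      exact Or.inl ⟨rfl, S.b_inj h⟩
    · subst h1
      rw [S.last] at h
      exact Or.inr ⟨rfl, S.b_inj h⟩
  · rintro (⟨rfl, rfl⟩ | ⟨rfl, rfl⟩)
    · exact S.first j
    · exact S.last j

/-- the trace of a circuit on the Petersen graph -/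
def tr (S : PetersenSubdivision G) (C : Finset E) (j : Fin 15) : ℕ :=
  if S.y j 0 ∈ C then 1 else 0

lemma tr_even (S : PetersenSubdivision G) {C : Finset E} (hCc : G.IsCircuit C)
    (hC : ∀ e ∈ C, ∃ j i, i < S.n j ∧ S.y j i = e) (u : Fin 10) :
    Even (∑ j, ((if petersen.fst j = u then tr S C j else 0) +
      (if petersen.snd j = u then tr S C j else 0))) := by
  have h1 := circuit_even hCc (S.b u)
  rw [sum_supported S C hC] at h1
  convert h1 using 1
  refine sum_congr rfl fun j _ => ?_
  have h2 : ∀ i ∈ range (S.n j), (if S.y j i ∈ C then inc G (S.y j i) (S.b u) else 0) =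
      (if i = 0 then (if petersen.fst j = u then tr S C j else 0) else 0) +
      (if i = S.n j - 1 then (if petersen.snd j = u then tr S C j else 0) else 0) := by
    intro i hi
    rw [mem_range] at hi
    rw [inc_joins (S.joins j i hi)]
    have e1 := x_branch S u j i hi.le
    have e2 := x_branch S u j (i + 1) hi
    have e3 : (i = 0 ∧ petersen.fst j = u ∨ i = S.n j ∧ petersen.snd j = u) ↔
        (i = 0 ∧ petersen.fst j = u) := by
      constructor
      · rintro (h | h)
        · exact h
        · omega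
      · exact Or.inl
    have e4 : (i + 1 = 0 ∧ petersen.fst j = u ∨ i + 1 = S.n j ∧ petersen.snd j = u) ↔
        (i = S.n j - 1 ∧ petersen.snd j = u) := by
      constructor
      · rintro (h | h)
        · omega
        · exact ⟨by omega, h.2⟩
      · rintro ⟨h, h'⟩
        exact Or.inr ⟨by omega, h'⟩
    simp only [e1, e2, e3, e4, all_or_none S hCc hC j i hi]
    unfold tr
    by_cases hy : S.y j 0 ∈ C <;> by_cases ha : i = 0 <;> by_cases hb : i = S.n j - 1 <;>
      by_cases hc : petersen.fst j = u <;> by_cases hd : petersen.snd j = u <;>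
      simp [hy, ha, hb, hc, hd]
  have m1 : 0 ∈ range (S.n j) := mem_range.2 (S.n_pos j)
  have m2 : S.n j - 1 ∈ range (S.n j) := by
    rw [mem_range]
    have := S.n_pos j
    omega
  rw [sum_congr rfl h2, sum_add_distrib]
  simp only [sum_ite_eq', m1, m2, if_true]

end

lemma nat_key (a0 a1 a2 a3 a4 c0 c1 c2 c3 c4 : ℕ)
    (h0 : a0 + a4 = c0 + c3) (h1 : a1 + a0 = c1 + c4) (h2 : a2 + a1 = c2 + c0)
    (h3 : a3 + a2 = c3 + c1) (h4 : a4 + a3 = c4 + c2) (g0 : a0 + a4 ≤ 1) (g1 : a1 + a0 ≤ 1)
    (g2 : a2 + a1 ≤ 1) (g3 : a3 + a2 ≤ 1) (g4 : a4 + a3 ≤ 1) :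
    (a0 + a1 + a2 + a3 + a4) % 2 = 0 := by
  have e0 : a0 = 0 ∨ a0 = 1 := by omega
  have e1 : a1 = 0 ∨ a1 = 1 := by omega
  have e2 : a2 = 0 ∨ a2 = 1 := by omega
  have e3 : a3 = 0 ∨ a3 = 1 := by omega
  have e4 : a4 = 0 ∨ a4 = 1 := by omega
  rcases e0 with rfl | rfl <;> rcases e1 with rfl | rfl <;> rcases e2 with rfl | rfl <;>
    rcases e3 with rfl | rfl <;> rcases e4 with rfl | rfl <;> omega

lemma list_le {α : Type} (L : List α) (f g : α → ℕ) (h : ∀ a ∈ L, f a ≤ g a) :
    (L.map f).sum ≤ (L.map g).sum := by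
  induction L with
  | nil => simp
  | cons b L ih =>
    have h1 := ih (fun a ha => h a (List.mem_cons_of_mem _ ha))
    have h2 := h b List.mem_cons_self
    simp only [List.map_cons, List.sum_cons]
    omega

lemma list_eq {α : Type} (L : List α) (f g : α → ℕ) (h : ∀ a ∈ L, f a ≤ g a)
    (hs : (L.map f).sum = (L.map g).sum) : ∀ a ∈ L, f a = g a := by
  induction L with
  | nil => simp
  | cons b L ih =>
    have h1 := list_le L f g (fun a ha => h a (List.mem_cons_of_mem _ ha))
    have h2 := h b List.mem_cons_self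
    simp only [List.map_cons, List.sum_cons] at hs
    intro a ha
    rcases List.mem_cons.1 ha with rfl | ha
    · omega
    · exact ih (fun a ha => h a (List.mem_cons_of_mem _ ha)) (by omega) a ha

lemma list_even {α : Type} (L : List α) (f : α → ℕ) (h : ∀ a ∈ L, Even (f a)) :
    Even (L.map f).sum := by
  induction L with
  | nil => simp
  | cons b L ih =>
    simp only [List.map_cons, List.sum_cons]
    exact (h b List.mem_cons_self).add (ih (fun a ha => h a (List.mem_cons_of_mem _ ha)))

/-- a family of even 0-1 vectors on the edges of the Petersen graph with sum `k pw`: `k` is even -/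
lemma petersen_key (L : List (Fin 15 → ℕ)) (k : ℕ) (h1 : ∀ a ∈ L, ∀ j, a j ≤ 1)
    (h2 : ∀ a ∈ L, ∀ u, Even (∑ j, ((if petersen.fst j = u then a j else 0) +
      (if petersen.snd j = u then a j else 0))))
    (h3 : ∀ j, (L.map fun a => a j).sum = k * pw j) : Even k := by
  have hsum : ∀ x y m : Fin 15, pw x = 1 → pw y = 1 → pw m = 2 →
      (∀ a ∈ L, Even (a x + a y + a m)) → ∀ a ∈ L, a m = a x + a y := by
    intro x y m hx hy hm he
    refine list_eq L (fun a => a m) (fun a => a x + a y) ?_ ?_
    · intro a ha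
      have e1 := he a ha
      have e2 := h1 a ha x
      have e3 := h1 a ha y
      have e4 := h1 a ha m
      rw [Nat.even_iff] at e1
      show a m ≤ a x + a y
      omega
    · have e1 : (L.map fun a => a x + a y).sum =
          (L.map fun a => a x).sum + (L.map fun a => a y).sum := by
        rw [← List.sum_map_add]
      rw [e1, h3, h3, h3, hx, hy, hm]
      ring
  have v0 := hsum 0 4 10 rfl rfl rfl (fun a ha => by
    have := h2 a ha 0
    simpa [Fin.sum_univ_succ, petersen, add_assoc] using this)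
  have v1 := hsum 0 1 11 rfl rfl rfl (fun a ha => by
    have := h2 a ha 1
    simpa [Fin.sum_univ_succ, petersen, add_assoc] using this)
  have v2 := hsum 1 2 12 rfl rfl rfl (fun a ha => by
    have := h2 a ha 2
    simpa [Fin.sum_univ_succ, petersen, add_assoc] using this)
  have v3 := hsum 2 3 13 rfl rfl rfl (fun a ha => by
    have := h2 a ha 3
    simpa [Fin.sum_univ_succ, petersen, add_assoc] using this)
  have v4 := hsum 3 4 14 rfl rfl rfl (fun a ha => by
    have := h2 a ha 4
    simpa [Fin.sum_univ_succ, petersen, add_assoc] using this)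
  have v5 := hsum 5 8 10 rfl rfl rfl (fun a ha => by
    have := h2 a ha 5
    simpa [Fin.sum_univ_succ, petersen, add_assoc] using this)
  have v6 := hsum 6 9 11 rfl rfl rfl (fun a ha => by
    have := h2 a ha 6
    simpa [Fin.sum_univ_succ, petersen, add_assoc] using this)
  have v7 := hsum 5 7 12 rfl rfl rfl (fun a ha => by
    have := h2 a ha 7
    simpa [Fin.sum_univ_succ, petersen, add_assoc] using this)
  have v8 := hsum 6 8 13 rfl rfl rfl (fun a ha => by
    have := h2 a ha 8
    simpa [Fin.sum_univ_succ, petersen, add_assoc] using this)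
  have v9 := hsum 7 9 14 rfl rfl rfl (fun a ha => by
    have := h2 a ha 9
    simpa [Fin.sum_univ_succ, petersen, add_assoc] using this)
  have hE := list_even L (fun a => a 0 + a 1 + a 2 + a 3 + a 4) (fun a ha => by
    rw [Nat.even_iff]
    have w0 := v0 a ha
    have w1 := v1 a ha
    have w2 := v2 a ha
    have w3 := v3 a ha
    have w4 := v4 a ha
    have w5 := v5 a ha
    have w6 := v6 a ha
    have w7 := v7 a ha
    have w8 := v8 a ha
    have w9 := v9 a ha
    have z0 := h1 a ha 10
    have z1 := h1 a ha 11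
    have z2 := h1 a ha 12
    have z3 := h1 a ha 13
    have z4 := h1 a ha 14
    exact nat_key (a 0) (a 1) (a 2) (a 3) (a 4) (a 5) (a 6) (a 7) (a 8) (a 9)
      (by omega) (by omega) (by omega) (by omega) (by omega) (by omega) (by omega) (by omega)
      (by omega) (by omega))
  have hS : (L.map fun a => a 0 + a 1 + a 2 + a 3 + a 4).sum = 5 * k := by
    have e1 : (L.map fun a => a 0 + a 1 + a 2 + a 3 + a 4).sum =
        (L.map fun a => a 0).sum + (L.map fun a => a 1).sum + (L.map fun a => a 2).sum +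
        (L.map fun a => a 3).sum + (L.map fun a => a 4).sum := by
      rw [← List.sum_map_add, ← List.sum_map_add, ← List.sum_map_add, ← List.sum_map_add]
    rw [e1, h3, h3, h3, h3, h3]
    show k * 1 + k * 1 + k * 1 + k * 1 + k * 1 = 5 * k
    ring
  rw [hS, Nat.even_iff] at hE
  rw [Nat.even_iff]
  omega

section

variable {V E : Type} [Fintype E] [DecidableEq V] [DecidableEq E] {G : MG V E}

lemma not_cover (S : PetersenSubdivision G) (k : ℕ) (h : G.FaithfulCover (wt S k)) : Even k := by
  obtain ⟨F, hF, hw⟩ := h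
  have hsup : ∀ C ∈ F, ∀ e ∈ C, ∃ j i, i < S.n j ∧ S.y j i = e := by
    intro C hC e he
    by_contra hc
    push Not at hc
    have h1 := wt_zero S k e hc
    rw [← hw e, List.countP_eq_zero] at h1
    exact h1 C hC (by simpa using he)
  refine petersen_key (F.map (tr S)) k ?_ ?_ ?_
  · intro a ha j
    obtain ⟨C, -, rfl⟩ := List.mem_map.1 ha
    unfold tr
    split_ifs <;> omega
  · intro a ha u
    obtain ⟨C, hC, rfl⟩ := List.mem_map.1 ha
    exact tr_even S (hF C hC) (hsup C hC) u
  · intro j
    rw [← wt_path S k j 0 (S.n_pos j), ← hw, List.map_map]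
    clear hF hw hsup
    induction F with
    | nil => rfl
    | cons C F ih =>
      rw [List.map_cons, List.sum_cons, ih, List.countP_cons]
      simp only [Function.comp, tr]
      by_cases hy : S.y j 0 ∈ C
      · simp [hy, add_comm]
      · simp [hy]

end

end Pool.Agent.TH502.PK
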